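import Pool.Agent.K4H17.WF.Transfer
import Pool.Agent.K4H17.WF.Statement

/-! # The weight functor `Γ^wt` is an equivalence of monoidal categories

`V` is a complex vector space with an infinite basis `b`, `V_*` is the span of the dual vectors
of `b` (`VStar b`), `𝔤 = SL b` is the Lie algebra `sl(V, V_*)`. `Gamma b M` is the space
`Γ^wt_𝔤(M)`, and `GammaT b M` is the same space as a `𝔤`-module. -/

namespace Pool.Agent.Results.MP_81e56d_al.WeightFunctorEquivalence

open Module TensorProduct K4H17.WF

universe u v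

set_option maxHeartbeats 400000 in
/-- `Γ^wt` is a functor `T_{End(V)} → T_𝔤`, it is fully faithful, essentially surjective and
monoidal. -/
theorem result {ι : Type v} {V : Type u} [AddCommGroup V] [Module ℂ V] [Infinite ι]
    (b : Basis ι ℂ V) :
    -- the space `Γ^wt(M)` is stable under `𝔤`, and it is an object of `T_𝔤`
    (∀ (M : Type u) [AddCommGroup M] [Module ℂ M] [LieRingModule (Module.End ℂ V) M]
      [LieModule ℂ (Module.End ℂ V) M], IsObjEnd V M →
      IsStable b M ∧ IsObjSL b (GammaT b M)) ∧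
    -- `Γ^wt` is a fully faithful functor, compatible with tensor products
    (∀ (M M' : Type u) [AddCommGroup M] [Module ℂ M] [LieRingModule (Module.End ℂ V) M]
      [LieModule ℂ (Module.End ℂ V) M] [AddCommGroup M'] [Module ℂ M']
      [LieRingModule (Module.End ℂ V) M'] [LieModule ℂ (Module.End ℂ V) M'],
      IsObjEnd V M → IsObjEnd V M' →
      Restricts b M M' ∧ FullyFaithful b M M' ∧ PreservesTensor b M M') ∧
    -- `Γ^wt` is essentially surjective
    (∀ (D : Type u) [AddCommGroup D] [Module ℂ D] [LieRingModule (SL b) D]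
      [LieModule ℂ (SL b) D], IsObjSL b D → InEssImage b D) ∧
    -- `Γ^wt` of a trivial module is the module itself
    (∀ (M : Type u) [AddCommGroup M] [Module ℂ M] [LieRingModule (Module.End ℂ V) M]
      [LieModule ℂ (Module.End ℂ V) M], LieModule.IsTrivial (Module.End ℂ V) M →
      Gamma b M = ⊤) := by
  refine ⟨?_, ?_, ?_, ?_⟩
  · intro M _ _ _ _ h
    refine ⟨?_, isTensorModule_GammaMod h⟩
    rw [IsStable, GammaMod_eq (nice_of_isTensorModule h), Gamma_eq (nice_of_isTensorModule h)]
  · intro M M' _ _ _ _ _ _ _ _ h h'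
    have hN : Nice b M := nice_of_isTensorModule h
    have hN' : Nice b M' := nice_of_isTensorModule h'
    refine ⟨fun f x hx => ?_, fun F => ?_, ⟨?_, ?_⟩⟩
    · rw [Gamma_eq hN] at hx
      rw [Gamma_eq hN']
      exact GM_hom (f : M →ₗ[ℂ] M') (fun c x => f.map_lie c x) hx
    · obtain ⟨f, hf⟩ := exists_hom_GammaMod h h' F
      refine ⟨f, hf, fun g hg => ?_⟩
      exact hom_ext_GammaMod (b := b) h g f fun x hx => by
        rw [hg ⟨x, hx⟩, hf ⟨x, hx⟩]
    · exact TensorProduct.map_injective_of_flat_flat _ _ Subtype.val_injective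
        Subtype.val_injective
    · have h3 : Gamma b (M ⊗[ℂ] M') = (GM b (M ⊗[ℂ] M')).toSubmodule := Gamma_eq (hN.tensor hN')
      rw [h3, Gamma_eq hN, Gamma_eq hN']
      ext x
      exact (tensor_GM hN hN').symm
  · intro D _ _ _ _ hD
    obtain ⟨⟨n, N', g, hg⟩, hfl⟩ := hD
    obtain ⟨N, K, ⟨e⟩⟩ := exists_subquotient (isGM_jP (b := b) n) (nice_P b n) N' g hg
    have hq : Function.Surjective (LieSubmodule.Quotient.mk' K) :=
      LieSubmodule.Quotient.surjective_mk' K
    have hNK : Nice b (N ⧸ K) :=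
      ((nice_P b n).sub N).of_surjective (LieSubmodule.Quotient.mk' K) hq
    have hfl' : FiniteLength (SL b) (GM b (N ⧸ K)) :=
      finiteLength_of_iso (LieSubmodule.orderIsoMapComap e).symm hfl
    have hfl'' : FiniteLength (Module.End ℂ V) (N ⧸ K) :=
      finiteLength_of_iso (latIso hNK).symm hfl'
    obtain ⟨e'⟩ := equiv_GammaMod hNK e
    exact ⟨N ⧸ K, inferInstance, inferInstance, inferInstance, inferInstance,
      ⟨⟨n, N, LieSubmodule.Quotient.mk' K, hq⟩, hfl''⟩, ⟨e'⟩⟩
  · intro M _ _ _ _ hM
    have hN : Nice b M := by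
      refine ⟨fun x => Good.of_trivial b trivial fun c => LieModule.IsTrivial.trivial c x,
        fun e _ x => mem_Eig_zero zero_mem_Kz (LieModule.IsTrivial.trivial e x)⟩
    rw [Gamma_eq hN]
    refine eq_top_iff.2 fun x _ => ?_
    exact ⟨∅, fun c _ _ => LieModule.IsTrivial.trivial c x⟩

end Pool.Agent.Results.MP_81e56d_al.WeightFunctorEquivalence
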